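import Pool.Agent.Helper77.PPS.Goals

/-!
# Project PP, packet PPS-P_TAI: tails
-/

namespace Pool.Agent.Helper19.PPS

open Finset Real Pool.Agent.Helper77.PPS

theorem log_two_half : (1 : ℝ) / 2 ≤ log 2 := by
  have := Real.log_two_gt_d9
  linarith

theorem one_sub_r {s : ℝ} (h1 : 1 < s) (h2 : s ≤ 2) :
    (s - 1) / 4 ≤ 1 - (2 : ℝ) ^ (1 - s) := by
  have hl := log_two_half
  have hl1 : log 2 ≤ 1 := by
    have := Real.log_two_lt_d9
    linarith
  set t := (s - 1) * log 2 with ht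
  have ht0 : 0 < t := mul_pos (by linarith) (by linarith)
  have ht1 : t ≤ 1 := by nlinarith
  have e1 : (2 : ℝ) ^ (1 - s) = exp (-t) := by
    rw [Real.rpow_def_of_pos (by norm_num)]
    congr 1
    rw [ht]
    ring
  have e2 : exp (-t) ≤ 1 / (1 + t) := by
    rw [Real.exp_neg, ← one_div]
    exact one_div_le_one_div_of_le (by linarith) (by linarith [Real.add_one_le_exp t])
  have e3 : 1 / (1 + t) ≤ 1 - t / 2 := by
    rw [div_le_iff₀ (by linarith)]
    nlinarith
  rw [e1]
  nlinarith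

variable {P : Type} {N : P → ℕ} {C C₁ : ℝ}

theorem block (hP : PSys N C) (hC : 0 < C₁)
    (hc : ∀ x : ℝ, 2 ≤ x → ((pr N x).card : ℝ) ≤ C₁ * (x / log x)) {x s : ℝ} (hx : 2 ≤ x)
    (h1 : 1 < s) (n : ℕ) : ∀ F : Finset P,
    (∀ q ∈ F, x < N q ∧ (N q : ℝ) ≤ 2 ^ n * x) →
    ∑ q ∈ F, (N q : ℝ) ^ (-s) ≤ 2 * C₁ / log x * x ^ (1 - s) *
      ∑ i ∈ range n, ((2 : ℝ) ^ (1 - s)) ^ i := by
  classical
  have hlx : 0 < log x := log_pos (by linarith)
  have hx0 : 0 < x := by linarith
  induction n with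
  | zero =>
    intro F hF
    have : F = ∅ := by
      rw [Finset.eq_empty_iff_forall_notMem]
      intro q hq
      obtain ⟨h3, h4⟩ := hF q hq
      rw [pow_zero, one_mul] at h4
      linarith
    subst this
    simp
  | succ n ih =>
    intro F hF
    rw [← Finset.sum_filter_add_sum_filter_not F (fun q => (N q : ℝ) ≤ 2 ^ n * x),
      sum_range_succ, mul_add]
    refine add_le_add ?_ ?_
    · refine ih _ fun q hq => ?_
      rw [mem_filter] at hq
      exact ⟨(hF q hq.1).1, hq.2⟩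
    · set G := F.filter fun q => ¬(N q : ℝ) ≤ 2 ^ n * x with hG
      set y : ℝ := 2 ^ n * x with hy
      have hy0 : 0 < y := by positivity
      have hyx : x ≤ y := by
        rw [hy]
        have : (1 : ℝ) ≤ 2 ^ n := one_le_pow₀ (by norm_num)
        nlinarith
      have hcard : (G.card : ℝ) ≤ 2 * C₁ / log x * y := by
        have h3 : G ⊆ pr N (2 * y) := by
          intro q hq
          rw [hG, mem_filter] at hq
          rw [mem_pr hP]
          have := (hF q hq.1).2
          rw [hy]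
          rw [pow_succ] at this
          linarith
        have h4 := hc (2 * y) (by linarith)
        have h5 : (G.card : ℝ) ≤ (pr N (2 * y)).card := by exact_mod_cast card_le_card h3
        have h6 : log x ≤ log (2 * y) := log_le_log hx0 (by linarith)
        have h7 : 2 * y / log (2 * y) ≤ 2 * y / log x :=
          div_le_div_of_nonneg_left (by positivity) hlx h6
        calc (G.card : ℝ) ≤ _ := h5
          _ ≤ _ := h4
          _ ≤ C₁ * (2 * y / log x) := mul_le_mul_of_nonneg_left h7 hC.le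
          _ = _ := by ring
      have hterm : ∀ q ∈ G, (N q : ℝ) ^ (-s) ≤ y ^ (-s) := by
        intro q hq
        rw [hG, mem_filter, not_le] at hq
        exact Real.rpow_le_rpow_of_nonpos hy0 hq.2.le (by linarith)
      have h8 : ∑ q ∈ G, (N q : ℝ) ^ (-s) ≤ G.card * y ^ (-s) := by
        have := sum_le_card_nsmul G _ _ hterm
        rwa [nsmul_eq_mul] at this
      have h9 : y * y ^ (-s) = y ^ (1 - s) := by
        rw [sub_eq_add_neg, Real.rpow_add hy0, Real.rpow_one]
      have h10 : y ^ (1 - s) = x ^ (1 - s) * ((2 : ℝ) ^ (1 - s)) ^ n := by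
        rw [hy, Real.mul_rpow (by positivity) hx0.le, mul_comm, ← Real.rpow_natCast 2 n,
          ← Real.rpow_natCast ((2 : ℝ) ^ (1 - s)) n, ← Real.rpow_mul (by norm_num),
          ← Real.rpow_mul (by norm_num), mul_comm (n : ℝ)]
      calc ∑ q ∈ G, (N q : ℝ) ^ (-s) ≤ G.card * y ^ (-s) := h8
        _ ≤ 2 * C₁ / log x * y * y ^ (-s) :=
          mul_le_mul_of_nonneg_right hcard (Real.rpow_nonneg hy0.le _)
        _ = 2 * C₁ / log x * (y * y ^ (-s)) := by ring
        _ = _ := by rw [h9, h10]; ring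

theorem tail (hP : PSys N C) (hC : 0 < C₁)
    (hc : ∀ x : ℝ, 2 ≤ x → ((pr N x).card : ℝ) ≤ C₁ * (x / log x)) {x s : ℝ} (hx : 2 ≤ x)
    (h1 : 1 < s) (h2 : s ≤ 2) (F : Finset P) (hF : ∀ q ∈ F, x < N q) :
    ∑ q ∈ F, (N q : ℝ) ^ (-s) ≤ 8 * C₁ / ((s - 1) * log x) := by
  have hlx : 0 < log x := log_pos (by linarith)
  have hx0 : 0 < x := by linarith
  obtain ⟨n, hn⟩ : ∃ n : ℕ, ∀ q ∈ F, (N q : ℝ) ≤ 2 ^ n * x := by
    refine ⟨∑ q ∈ F, N q, fun q hq => ?_⟩
    have h3 : N q ≤ ∑ q ∈ F, N q := single_le_sum (f := N) (fun _ _ => Nat.zero_le _) hq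
    have h4 : (N q : ℝ) ≤ 2 ^ (∑ q ∈ F, N q) := by
      have : N q < 2 ^ (∑ q ∈ F, N q) := lt_of_le_of_lt h3 Nat.lt_two_pow_self
      exact_mod_cast this.le
    have h5 : (0 : ℝ) < 2 ^ (∑ q ∈ F, N q) := by positivity
    nlinarith
  have h3 := block hP hC hc hx h1 n F fun q hq => ⟨hF q hq, hn q hq⟩
  set r : ℝ := (2 : ℝ) ^ (1 - s) with hr
  have hr0 : 0 < r := Real.rpow_pos_of_pos (by norm_num) _
  have hr1 := one_sub_r h1 h2
  have hs1 : 0 < s - 1 := by linarith
  have h4 : ∑ i ∈ range n, r ^ i ≤ 4 / (s - 1) := by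
    have h5 : (∑ i ∈ range n, r ^ i) * (1 - r) = 1 - r ^ n := by
      have := geom_sum_mul_neg r n
      linarith
    have h6 : 0 ≤ ∑ i ∈ range n, r ^ i := sum_nonneg fun i _ => by positivity
    have h7 : 0 < r ^ n := by positivity
    rw [le_div_iff₀ hs1]
    nlinarith
  have h5 : x ^ (1 - s) ≤ 1 := Real.rpow_le_one_of_one_le_of_nonpos (by linarith) (by linarith)
  have h6 : 0 ≤ ∑ i ∈ range n, r ^ i := sum_nonneg fun i _ => by positivity
  calc ∑ q ∈ F, (N q : ℝ) ^ (-s) ≤ _ := h3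
    _ ≤ 2 * C₁ / log x * 1 * (4 / (s - 1)) := by gcongr
    _ = _ := by
      field_simp
      ring

theorem all (hP : PSys N C) (hC : 0 < C₁)
    (hc : ∀ x : ℝ, 2 ≤ x → ((pr N x).card : ℝ) ≤ C₁ * (x / log x)) {s : ℝ}
    (h1 : 1 < s) (h2 : s ≤ 2) (F : Finset P) :
    ∑ q ∈ F, (N q : ℝ) ^ (-s) ≤ 4 * C₁ + 16 * C₁ / (s - 1) := by
  classical
  have hl := log_two_half
  have hs1 : 0 < s - 1 := by linarith
  rw [← Finset.sum_filter_add_sum_filter_not F (fun q => (N q : ℝ) ≤ 2)]
  refine add_le_add ?_ ?_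
  · have h3 : ∀ q ∈ F.filter (fun q => (N q : ℝ) ≤ 2), (N q : ℝ) ^ (-s) ≤ 1 := by
      intro q _
      have : (1 : ℝ) ≤ N q := by exact_mod_cast (by have := hP.two q; omega : 1 ≤ N q)
      exact Real.rpow_le_one_of_one_le_of_nonpos this (by linarith)
    have h4 := sum_le_card_nsmul _ _ _ h3
    rw [nsmul_eq_mul, mul_one] at h4
    have h5 : F.filter (fun q => (N q : ℝ) ≤ 2) ⊆ pr N 2 := by
      intro q hq
      rw [mem_filter] at hq
      exact (mem_pr hP).2 hq.2
    have h6 : ((F.filter (fun q => (N q : ℝ) ≤ 2)).card : ℝ) ≤ (pr N 2).card := by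
      exact_mod_cast card_le_card h5
    have h7 := hc 2 le_rfl
    have h8 : (2 : ℝ) / log 2 ≤ 4 := by
      rw [div_le_iff₀ (by linarith)]
      linarith
    nlinarith
  · have h3 := tail hP hC hc le_rfl h1 h2 (F.filter fun q => ¬(N q : ℝ) ≤ 2) fun q hq => by
      rw [mem_filter, not_le] at hq
      exact hq.2
    refine h3.trans ?_
    rw [div_le_div_iff₀ (by positivity) hs1]
    have : 0 < C₁ * (s - 1) := by positivity
    nlinarith

/-- Packet PPS-P_TAI. -/
theorem p_tai (h1 : P_CNT) : P_TAI := by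
  intro C
  obtain ⟨C₁, hC, hcnt⟩ := h1 C
  refine ⟨20 * C₁, by positivity, ?_⟩
  intro P N hP
  obtain ⟨hc, -, -, -⟩ := hcnt P N hP
  have hN1 : ∀ q, (1 : ℝ) ≤ N q := fun q => by
    exact_mod_cast (by have := hP.two q; omega : 1 ≤ N q)
  have hnn : ∀ (s : ℝ) (q : P), 0 ≤ (N q : ℝ) ^ (-s) := fun s q =>
    Real.rpow_nonneg (Nat.cast_nonneg _) _
  have hsum : ∀ s : ℝ, 1 < s → s ≤ 2 → Summable fun q ↦ (N q : ℝ) ^ (-s) := fun s h3 h4 =>
    summable_of_sum_le (hnn s) (all hP hC hc h3 h4)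
  have hmono : ∀ (s : ℝ) (q : P), 2 ≤ s → (N q : ℝ) ^ (-s) ≤ (N q : ℝ) ^ (-(2 : ℝ)) :=
    fun s q h => Real.rpow_le_rpow_of_exponent_le (hN1 q) (by linarith)
  have hsum2 := hsum 2 (by norm_num) le_rfl
  have htwo : ∀ F : Finset P, ∑ q ∈ F, (N q : ℝ) ^ (-(2 : ℝ)) ≤ 20 * C₁ := by
    intro F
    have := all hP hC hc (s := 2) (by norm_num) le_rfl F
    norm_num at this ⊢
    linarith
  refine ⟨fun s hs => ?_, ?_, fun x hx => ?_⟩
  · rcases le_or_gt s 2 with h | h
    · exact hsum s hs h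
    · exact Summable.of_nonneg_of_le (hnn s) (fun q => hmono s q h.le) hsum2
  · exact hsum2.tsum_le_of_sum_le htwo
  · have hlx : 0 < log x := log_pos (by linarith)
    set s := 1 + 1 / log x with hs
    have key : ∀ F : Finset {q : P // x < N q}, ∑ q ∈ F, (N q.1 : ℝ) ^ (-s) ≤ 20 * C₁ := by
      intro F
      have e1 : ∑ q ∈ F, (N q.1 : ℝ) ^ (-s) =
          ∑ q ∈ F.map (Function.Embedding.subtype _), (N q : ℝ) ^ (-s) := by
        rw [sum_map]
        rfl
      rw [e1]
      rcases le_or_gt 1 (log x) with h | h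
      · have h3 : s - 1 = 1 / log x := by rw [hs]; ring
        have h4 : 1 / log x ≤ 1 := by
          rw [div_le_one hlx]
          exact h
        have h5 : 0 < 1 / log x := by positivity
        have h6 := tail hP hC hc hx (s := s) (by linarith) (by linarith)
          (F.map (Function.Embedding.subtype _)) fun q hq => by
            rw [mem_map] at hq
            obtain ⟨a, -, rfl⟩ := hq
            exact a.2
        rw [h3, div_mul_cancel₀ _ hlx.ne', div_one] at h6
        linarith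
      · have h3 : 2 ≤ s := by
          have : 1 ≤ 1 / log x := by
            rw [le_div_iff₀ hlx]
            linarith
          linarith
        exact (sum_le_sum fun q _ => hmono s q h3).trans (htwo _)
    have hsm : Summable fun q : {q : P // x < N q} ↦ (N q.1 : ℝ) ^ (-s) :=
      summable_of_sum_le (fun q => hnn s q.1) key
    exact hsm.tsum_le_of_sum_le key

end Pool.Agent.Helper19.PPS
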